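import Mathlib
import Pool.Agent.H32.Kun3
import Pool.Agent.H32.WS

open Set Filter Topology Function
open Cardinal hiding univ

namespace Pool.Agent.Results.MP_7279d0_gt.ManyOrbits

open Pool.Agent.H32 WS UFA UFB Kun2

/-- the orbit of a point under all autohomeomorphisms -/
def orbit {Y : Type} [TopologicalSpace Y] (y : Y) : Set Y := {z | ∃ h : Y ≃ₜ Y, h y = z}

def fr {p : UF} (h : NP p) : W :=
  ⟨p, fun _ hs => Ultrafilter.compl_notMem_iff.1 (h.fin hs)⟩

lemma np (x : W) : NP x.1 := fun n h => by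
  simpa [h] using x.2 (finite_singleton n).compl_mem_cofinite

lemma key {w u v : UF} (hw : WP w) (hu : WP u) {y : ℕ → UF} (h1 : ∀ n, NP (y n))
    (h2 : ∀ n, y n ≠ tens w u) (e : v.bind y = tens w u) : RK w v := by
  rcases v.mem_or_compl_mem {n | ∀ S ∈ y n, ∃ j ∈ univ, S ∈ u.map (Nat.pair j)} with k | k
  · choose! c c1 c2 using fun n (hn : ∀ S ∈ y n, ∃ j ∈ univ, S ∈ u.map (Nat.pair j)) =>
      closure_lemma hn
    have z : w = v.bind c := by
      rw [← tens_fst w u, ← e, UFA.map_bind]
      exact UFA.bind_congr (mem_of_superset k fun n hn => by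
        simp only [mem_ofPred_eq]
        rw [c2 n hn]
        exact tens_fst _ _)
    rcases hw.2 v c z with l | l
    · choose! t ht using fun n (hn : ¬ NP (c n)) => not_forall_not.1 hn
      exact ⟨t, (z.trans (UFA.bind_congr (g' := fun n => pure (t n)) (mem_of_superset l ht))).symm⟩
    · obtain ⟨n, n1, n2⟩ := Ultrafilter.nonempty_of_mem (inter_mem k l)
      exact (h2 n (by rw [c2 n n1, n2.out]; rfl)).elim
  refine (separation k univ_mem (fun n hn => ?_) (fun j _ => ?_) e).elim
  · by_contra! q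
    exact hn q
  by_contra! q
  obtain ⟨a, a1, a2⟩ := closure_lemma q
  have a3 : {n | range (Nat.pair j) ∈ y n} ∈ a :=
    (a2 ▸ range_mem_map : range (Nat.pair j) ∈ a.bind y)
  have z : ∀ n, range (Nat.pair j) ∈ y n →
      ((y n).map fun k => k.unpair.2).map (Nat.pair j) = y n := fun n hn =>
    (map_congr (v := y n) (f := Nat.pair j ∘ fun k => k.unpair.2) (f' := id)
      (mem_of_superset hn (by rintro _ ⟨n, rfl⟩; simp))).trans rfl
  rcases hu.2 a (fun n => (y n).map fun k => k.unpair.2) (by
    rw [← col_snd u j, a2]; rfl) with l | l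
  · obtain ⟨n, n1, n2⟩ := Ultrafilter.nonempty_of_mem (inter_mem a3 l)
    exact n2 ((h1 n).of_RK ⟨_, z n n1⟩)
  · obtain ⟨n, ⟨n1, n2⟩, n3⟩ := Ultrafilter.nonempty_of_mem (inter_mem (inter_mem a3 l) a1)
    exact n3 fun S hS => ⟨j, trivial, by rwa [← n2.out, z n n1]⟩

lemma upper : #C(W, W) ≤ 2 ^ 𝔠 := by
  choose d hd using fun A : {A : Set ℕ // A.Infinite} => ex A.2
  have : DenseRange d := dense_iff_inter_open.2 fun U u ⟨p, hp⟩ => by
    obtain ⟨A, a1, a2⟩ := bas u hp
    exact ⟨_, a2 (hd ⟨A, fun z => (np p).fin z a1⟩), mem_range_self _⟩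
  refine (mk_le_of_injective (f := fun f : C(W, W) => fun A => (f (d A)).1.sets) fun f g h =>
    DFunLike.coe_injective (this.equalizer f.continuous g.continuous (funext fun A =>
      Subtype.ext (Ultrafilter.coe_injective (Filter.ext' fun s => ?_))))).trans ?_
  · exact Set.ext_iff.1 (congrFun h A) _
  · rw [mk_pi, prod_const', mk_set, mk_set, mk_nat, two_power_aleph0, ← power_mul]
    exact power_le_power_left two_ne_zero ((mul_le_mul_right ((mk_subtype_le _).trans_eq
      (by simp)) _).trans_eq continuum_mul_self)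

theorem result : #(range (orbit : C(W, W) → Set C(W, W))) = 2 ^ 𝔠 := by
  refine (mk_range_le.trans upper).antisymm ?_
  obtain ⟨w, w1, w2⟩ := Kun3.many
  let u := w fun _ => true
  let x : (Kun.T → Bool) → W := fun g => fr (tens_np (w2 g).1 u)
  let e : (Kun.T → Bool) → range (orbit : C(W, W) → Set C(W, W)) := fun g =>
    ⟨_, ContinuousMap.const W (x g), rfl⟩
  have k : ∀ g g', e g = e g' → RK (w g) (w g') := fun g g' h => by
    obtain ⟨Φ, hΦ⟩ : ContinuousMap.const W (x g) ∈ orbit (ContinuousMap.const W (x g')) :=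
      (congrArg Subtype.val h).le ⟨.refl _, rfl⟩
    let p : ℕ → W := fun n => fr ((w2 _).1.of_RK ⟨_, col_snd u n⟩)
    have t : Tendsto (fun n => Φ (.const W (p n))) (w g') (𝓝 (.const W (x g))) :=
      hΦ ▸ ((Φ.continuous.comp ContinuousMap.continuous_const').tendsto _).comp
        (tendsto_subtype_rng.2 (tendsto_bind _ _))
    have : ∀ n, ∃ a, Φ (.const W (p n)) a ≠ x g := fun n => by
      by_contra! z
      have := congrArg (fun f : C(W, W) => (f (x g)).1.map fun k => k.unpair.1)
        (Φ.injective ((ContinuousMap.ext z).trans hΦ.symm))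
      exact (w2 g').1 n ((tens_fst _ _).symm.trans (this.symm.trans (col_fst u n)))
    choose a ha using this
    refine key (w2 g) (w2 _) (fun n => np (Φ (.const W (p n)) (a n)))
      (fun n z => ha n (Subtype.ext z)) (eq_of_sub fun A hA => ?_).symm
    exact (t.eventually (ContinuousMap.eventually_mapsTo isCompact_univ (st_clopen A).2
      fun _ _ => hA)).mono fun n hn => hn (mem_univ (a n))
  have := mk_le_mk_mul_of_mk_preimage_le (c := 𝔠) e fun b => by
    rcases (e ⁻¹' {b}).eq_empty_or_nonempty with z | ⟨g', rfl⟩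
    · simp [z]
    · choose f hf using fun g : e ⁻¹' {e g'} => k g g' g.2
      exact (mk_le_of_injective (f := f) fun a b z => Subtype.ext
        (w1 (by rw [← hf, ← hf, z]))).trans_eq (by simp)
  by_contra! z
  exact absurd this (not_le.2 ((mul_lt_of_lt (aleph0_le_continuum.trans (cantor _).le) z
    (cantor _)).trans_eq (by simp [Kun.T])))

end Pool.Agent.Results.MP_7279d0_gt.ManyOrbits
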